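import Mathlib
import Pool.Agent.Helper920.Family
import Pool.Agent.Helper920.Op

set_option autoImplicit false

namespace Pool.Agent.Results.MP_766cb7_co.NotBMatroidClosure

open Set

/-- IE-operator on the set of all points of the type `S`: extensive, monotone, (cl3) and (cl4'). -/
structure IsIEOperator {S : Type} (f : Set S → Set S) : Prop where
  cl1 : ∀ X, X ⊆ f X
  cl2 : ∀ X Y, X ⊆ Y → f X ⊆ f Y
  cl3 : ∀ X, f (f X) = f X
  cl4' : ∀ A B : Set S, ∀ q, q ∈ f B → q ∉ f (B \ A) → ∃ a ∈ A, a ∈ f (insert q (B \ {a}))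

/-- `X` is independent for `f`. -/
def IsIndependent {S : Type} (f : Set S → Set S) (X : Set S) : Prop := ∀ x ∈ X, x ∉ f (X \ {x})

/-- `X` is spanning for `f`. -/
def IsSpanning {S : Type} (f : Set S → Set S) (X : Set S) : Prop := f X = univ

/-- Condition (C). -/
def CondC {S : Type} (f : Set S → Set S) : Prop :=
  ∀ (B : Set S) (q : S), q ∈ f B →
    ∃ U : Set S, Minimal (fun W : Set S => W ⊆ B ∧ q ∈ f W) U ∧ IsIndependent f U

/-- Condition (H). -/
def CondH {S : Type} (f : Set S → Set S) : Prop :=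
  ∀ (B : Set S) (q : S), q ∉ f B →
    ∃ V : Set S, Maximal (fun W : Set S => B ⊆ W ∧ q ∉ f W) V ∧ IsSpanning f (insert q V)

/-- `J` is an `I`-basis of `A`: a maximal member of `I` contained in `A`. -/
def IsBasisOf {S : Type} (I : Set (Set S)) (A J : Set S) : Prop :=
  Maximal (fun W : Set S => W ∈ I ∧ W ⊆ A) J

/-- B-matroid on the set of all points of the type `S`. -/
structure IsBMatroid {S : Type} (I : Set (Set S)) : Prop where
  empty_mem : ∅ ∈ I
  subset_mem : ∀ X Y, X ⊆ Y → Y ∈ I → X ∈ I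
  IB1 : ∀ J A : Set S, J ∈ I → J ⊆ A → ∃ K, IsBasisOf I A K ∧ J ⊆ K
  IB2 : ∀ A B₁ B₂ : Set S, IsBasisOf I A B₁ → IsBasisOf I A B₂ → ∀ a ∈ B₁ \ B₂,
    ∃ b ∈ B₂ \ B₁, IsBasisOf I A (insert b (B₁ \ {a}))

/-- The closure operator of a family of sets. -/
def closureOp {S : Type} (I : Set (Set S)) (A : Set S) : Set S :=
  A ∪ {e | ∃ J ∈ I, J ⊆ A ∧ insert e J ∉ I}

open Pool.Agent.Helper920.Family Pool.Agent.Helper920.Op in
/-- On a countable set there is an IE-operator with (C) and (H) which is not the closure operator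
of any B-matroid. -/
theorem result : ∃ f : Set (ℕ × Fin 3) → Set (ℕ × Fin 3),
    IsIEOperator f ∧ CondC f ∧ CondH f ∧
      ¬ ∃ I : Set (Set (ℕ × Fin 3)), IsBMatroid I ∧ closureOp I = f := by
  obtain ⟨B, hex, hanti, hcomp, hJL, hT, hmid⟩ := exists_family
  have h0 : ∅ ∉ B := by
    intro h
    have h2 : ∅ = JL := hanti ∅ h JL hJL (empty_subset _)
    have h3 : ((0 : ℕ), (0 : Fin 3)) ∈ JL := Or.inl rfl
    rw [← h2] at h3
    exact h3
  refine ⟨op B, ⟨op_ext, fun X Y h => op_mono h, op_idem, fun X Y p => op_exchange hex X Y p⟩,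
    fun Y p hp => op_C hanti h0 Y p hp, fun Y p hp => op_H hex hanti hcomp Y p hp, ?_⟩
  rintro ⟨I, hI, hcl⟩
  -- independent for the operator implies membership in `I`
  have ind1 : ∀ A : Set (ℕ × Fin 3), IsIndependent (op B) A → A ∈ I := by
    intro A hA
    obtain ⟨M, hM, _⟩ := hI.IB1 ∅ A hI.empty_mem (empty_subset _)
    by_cases h : A ⊆ M
    · exact (Subset.antisymm h hM.1.2) ▸ hM.1.1
    · obtain ⟨a, haA, haM⟩ := not_subset.1 h
      exfalso
      apply hA a haA
      rw [← hcl]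
      right
      refine ⟨M, hM.1.1, fun x hx => ⟨hM.1.2 hx, fun h' => haM (h' ▸ hx)⟩, ?_⟩
      intro hins
      exact haM (hM.2 ⟨hins, insert_subset haA hM.1.2⟩ (subset_insert _ _) (mem_insert _ _))
  -- and conversely
  have ind2 : ∀ A : Set (ℕ × Fin 3), A ∈ I → IsIndependent (op B) A := by
    intro A hA a ha h
    rw [← hcl] at h
    rcases h with h | ⟨K, _, hKA, hins⟩
    · exact h.2 rfl
    · exact hins (hI.subset_mem _ _ (insert_subset ha (hKA.trans sdiff_subset)) hA)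
  have hJI : J ∈ I := by
    apply ind1
    intro e he h
    have hne : ¬ ∃ Y' ∈ B, Y' ⊆ J \ {e} := fun ⟨Y, hY, hYJ⟩ =>
      proper_sdiff hanti hJL (show e ∈ JL from Or.inl he)
        ⟨Y, hY, hYJ.trans (sdiff_subset_sdiff_left (fun x hx => Or.inl hx))⟩
    rw [op_id hne] at h
    exact h.2 rfl
  obtain ⟨M, hM, hJM⟩ := hI.IB1 J JK hJI (fun x hx => Or.inl hx)
  have hMJK : M ⊆ JK := hM.1.2
  have hJKM : JK ⊆ op B M := by
    intro e he
    by_cases heM : e ∈ M
    · exact Or.inl heM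
    · rw [← hcl]
      right
      refine ⟨M, hM.1.1, Subset.rfl, fun hins => heM ?_⟩
      exact hM.2 ⟨hins, insert_subset he hMJK⟩ (subset_insert _ _) (mem_insert _ _)
  have hMB : ∃ Y ∈ B, Y ⊆ M := by
    by_contra hc
    rw [op_id hc] at hJKM
    apply hc
    refine ⟨T univ, hT univ infinite_univ, ?_⟩
    rintro x (hx | hx)
    · exact hJKM (Or.inl hx.1)
    · exact hJKM (Or.inr hx.1)
  obtain ⟨Y, hY, hYM⟩ := hMB
  have hMY : M ⊆ Y := by
    intro x hx
    by_contra hxY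
    apply ind2 M hM.1.1 x hx
    exact Or.inr ⟨Y, hY, fun y hy => ⟨hYM hy, fun h => hxY (h ▸ hy)⟩⟩
  have : Y = M := Subset.antisymm hYM hMY
  exact hmid M hJM hMJK (this ▸ hY)

end Pool.Agent.Results.MP_766cb7_co.NotBMatroidClosure
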